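import Pool.Agent.H27.L1.H69.GA.SPX

/-!
The L-function of a form is not zero (board gb).
-/

set_option autoImplicit false

namespace Pool.Agent.H27.L1.H69.GB

open MeasureTheory Pool.Agent.H27.L1.H34.GM Pool.Agent.H27.L1.H34.GZ Pool.Agent.H27.L1.H34.GU Pool.Agent.H27.L1.H34.GA

/-- the L-function is unique -/
theorem isl_uniq {m : ℕ} {lam : ℕ → ℂ} {L L' : ℂ → ℂ} (h : IsL m 1 lam L)
    (h' : IsL m 1 lam L') : L = L' := by
  have ha : AnalyticOnNhd ℂ L Set.univ := h.1.differentiableOn.analyticOnNhd isOpen_univ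
  have ha' : AnalyticOnNhd ℂ L' Set.univ := h'.1.differentiableOn.analyticOnNhd isOpen_univ
  refine ha.eq_of_eventuallyEq ha' (z₀ := ((m : ℝ) + 3 : ℝ)) ?_
  have hO : IsOpen {s : ℂ | (m : ℝ) + 2 < s.re} := isOpen_lt continuous_const Complex.continuous_re
  have hm : (((m : ℝ) + 3 : ℝ) : ℂ) ∈ {s : ℂ | (m : ℝ) + 2 < s.re} := by
    show (m : ℝ) + 2 < (((m : ℝ) + 3 : ℝ) : ℂ).re
    rw [Complex.ofReal_re]
    linarith
  filter_upwards [hO.mem_nhds hm] with s hs
  exact (h.2 s hs).unique (h'.2 s hs)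

theorem cR_det {m : ℕ} (α : ZM m) : (cR α).det = ((α.det : ℤ) : ℝ) := by
  have h := (Int.castRingHom ℝ).map_det α
  rw [show ((α.det : ℤ) : ℝ) = (Int.castRingHom ℝ) α.det from rfl, h]
  rfl

/-- the first eigenvalue -/
theorem lam_one {m N : ℕ} [NeZero N] {T : ℕ → Finset (ZM m)} {D : Set (V m)}
    (hS : SysZ m N T D) {F : Mat m → VN m N → ℂ} {lam : ℕ → ℂ} (hF : HecA m N T F lam)
    (hN : NZ F) : lam 1 = 1 := by
  obtain ⟨g, x, hg, hx⟩ := hN
  have hdet1 : ((1 : ZM m).det).natAbs = 1 := by rw [Matrix.det_one, Int.natAbs_one]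
  obtain ⟨α0, ⟨hα0, -⟩, hun⟩ := hS.reps.uniq 1 le_rfl 1 hdet1
  have hunit : ∀ α ∈ T 1, IsUnit α := by
    intro α hα
    have h1 := hS.reps.mem 1 le_rfl α hα
    rw [Matrix.isUnit_iff_isUnit_det]
    exact Int.isUnit_iff_natAbs_eq.2 h1
  have hT : T 1 = {α0} := by
    apply Finset.eq_singleton_iff_unique_mem.2
    refine ⟨hα0, fun α hα => ?_⟩
    apply hun
    obtain ⟨u, hu⟩ := hunit α hα
    refine ⟨hα, ((u⁻¹ : (ZM m)ˣ) : ZM m), Units.isUnit _, ?_⟩
    rw [← hu, Units.inv_mul]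
  have h1 := hF.hecke 1 le_rfl g x hg
  rw [hT, Finset.sum_singleton, hF.auto α0 (hunit α0 hα0) g x hg] at h1
  rw [Nat.cast_one, Complex.one_cpow, one_mul] at h1
  exact (mul_right_cancel₀ hx (by rw [← h1, one_mul])).symm

/-- the L-function is not zero -/
theorem isl_ne {m : ℕ} {lam : ℕ → ℂ} {L : ℂ → ℂ} (h : IsL m 1 lam L) (h1 : lam 1 = 1) :
    ∃ s : ℂ, L s ≠ 0 := by
  by_contra hc
  push Not at hc
  have hterm : ∀ s : ℂ, (m : ℝ) + 2 < s.re → HasSum (LSeries.term lam s) (L s) := by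
    intro s hs
    have e : LSeries.term lam s = fun n : ℕ => if 1 ≤ n ∧ n.Coprime 1 then
        lam n * (n : ℂ) ^ (-s) else 0 := by
      funext n
      rw [LSeries.term_def]
      by_cases hn : n = 0
      · rw [if_pos hn, if_neg (by omega)]
      · rw [if_neg hn, if_pos ⟨by omega, Nat.coprime_one_right n⟩, Complex.cpow_neg,
          div_eq_mul_inv]
    rw [e]
    exact h.2 s hs
  have h0 : ((m : ℝ) + 2) < (((m : ℝ) + 3 : ℝ) : ℂ).re := by
    rw [Complex.ofReal_re]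
    linarith
  have habs : LSeries.abscissaOfAbsConv lam ≠ ⊤ := by
    have h2 : LSeriesSummable lam (((m : ℝ) + 3 : ℝ) : ℂ) := (hterm _ h0).summable
    have h3 := h2.abscissaOfAbsConv_le
    exact ne_top_of_le_ne_top (EReal.coe_ne_top _) h3
  have hev : (fun x : ℝ => LSeries lam x) =ᶠ[Filter.atTop] 0 := by
    filter_upwards [Filter.eventually_gt_atTop ((m : ℝ) + 2)] with x hx
    have h4 := hterm (x : ℂ) (by rw [Complex.ofReal_re]; exact hx)
    rw [Pi.zero_apply, LSeries, h4.tsum_eq]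
    exact hc _
  have h5 := (LSeries_eventually_eq_zero_iff'.1 hev).resolve_right habs 1 one_ne_zero
  rw [h1] at h5
  exact one_ne_zero h5

end Pool.Agent.H27.L1.H69.GB
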