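import Pool.Agent.H27.L1.H69.GB.Lone
import Pool.Agent.H27.L1.H84.GA.BDB
import Pool.Agent.H27.L1.H23.GB.TargetsA

/-!
Row HYA of the board gb: the analytic half, one value on the critical line against short sums.
-/

set_option autoImplicit false

namespace Pool.Agent.H27.L1.H69.GB

open MeasureTheory Pool.Agent.H27.L1.H34.GM Pool.Agent.H27.L1.H34.GZ Pool.Agent.H27.L1.H34.GU Pool.Agent.H27.L1.H34.GA
open Pool.Agent.H27.L1.H23.GB Pool.Agent.H27.L1.H69.GA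

/-- the exponents of `c / P` -/
theorem hya_pow {N P c ε : ℝ} (hN : 0 < N) (hP : 0 < P) (hc : 0 < c) :
    (N / (c / P)) ^ ε = c ^ (-ε) * (N * P) ^ ε := by
  have h1 : N / (c / P) = c⁻¹ * (N * P) := by
    field_simp
  rw [h1, Real.mul_rpow (by positivity) (by positivity), Real.inv_rpow hc.le,
    Real.rpow_neg hc.le]

theorem hya_pow2 {N P c : ℝ} (m : ℕ) (hN : 0 < N) (hP : 0 < P) (hc : 0 < c) :
    (N * (c / P)⁻¹ ^ m) ^ (1 / 2 : ℝ) = (c⁻¹ ^ m) ^ (1 / 2 : ℝ) * (N * P ^ m) ^ (1 / 2 : ℝ) := by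
  have h1 : N * (c / P)⁻¹ ^ m = c⁻¹ ^ m * (N * P ^ m) := by
    rw [inv_div, div_eq_mul_inv, mul_pow]
    ring
  rw [h1, Real.mul_rpow (by positivity) (by positivity)]

/-- the product of the factors -/
theorem hya_prod {m : ℕ} (a : Fin m → Fin m → ℝ) {P c : ℝ} (hP : 0 < P) (hc : 0 < c) :
    ∏ i : Fin m, ∏ j, (a i j / P) =
      (∏ i : Fin m, ∏ j, a i j) * (c / P) ^ (m * m) * (c ^ (m * m))⁻¹ := by
  have h1 : ∏ i : Fin m, ∏ j, (a i j / P) = (∏ i : Fin m, ∏ j, a i j) / P ^ (m * m) := by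
    simp only [Finset.prod_div_distrib, Finset.prod_const, Finset.card_univ, Fintype.card_fin]
    rw [← pow_mul]
  rw [h1, div_pow]
  field_simp

/-- the bound of the dual weight, with a fixed scale -/
theorem hya_min {x CK r δ : ℝ} {K : ℕ} (hCK : 0 ≤ CK) (hr : 0 < r) (hδ : 0 < δ) (hδ1 : δ ≤ 1)
    (h : x ≤ CK * min 1 ((r / δ) ^ K)) : x ≤ CK * δ⁻¹ ^ K * min 1 (r ^ K) := by
  have hq : (1 : ℝ) ≤ δ⁻¹ ^ K := one_le_pow₀ ((one_le_inv₀ hδ).2 hδ1)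
  have hq0 : (0 : ℝ) ≤ δ⁻¹ ^ K := by linarith
  rw [mul_assoc]
  refine h.trans (mul_le_mul_of_nonneg_left ?_ hCK)
  rw [mul_min_of_nonneg _ _ hq0, mul_one, div_eq_mul_inv, mul_pow, mul_comm (r ^ K)]
  exact min_le_min hq le_rfl

/-- the last step -/
theorem hya_fin {x Pr0 Z CA CZ cl cm E I R δm : ℝ} (hx : 0 ≤ x) (hcl : 0 < cl) (hcm : 0 < cm)
    (hZ : Pr0 * (cl * 1 * δm) ≤ Z) (hA : x * Z ≤ CA * CZ * E * (1 + I)) (hR : R = Pr0 * δm * cm⁻¹) :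
    x * R ≤ CA * CZ * (cl * cm)⁻¹ * E * (1 + I) := by
  have h1 : x * (Pr0 * (cl * 1 * δm)) ≤ CA * CZ * E * (1 + I) :=
    (mul_le_mul_of_nonneg_left hZ hx).trans hA
  have h2 : x * R = x * (Pr0 * (cl * 1 * δm)) * (cl * cm)⁻¹ := by
    rw [hR]
    field_simp
  rw [h2]
  calc x * (Pr0 * (cl * 1 * δm)) * (cl * cm)⁻¹ ≤ CA * CZ * E * (1 + I) * (cl * cm)⁻¹ :=
        mul_le_mul_of_nonneg_right h1 (by positivity)
    _ = _ := by ring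

theorem pf_HYA (hPRF : T_PRF) (hFR : T_FR1) (hAFH : T_AFH) (hZPE : T_ZPE)
    (hLMB : Pool.Agent.H27.L1.H23.GB.T_LMB) (hZLS : T_ZLS) (hZPB : T_ZPB) (hFEC : T_FEC)
    (hMLZ : T_MLZ) (hENA : T_ENA) (hCNR : T_CNR) (hCIF : T_CIF) (hCFA : T_CFA)
    (hCFB : Pool.Agent.H27.L1.H34.GA.T_CFB) (hZAD : T_ZAD) (hSMA : Pool.Agent.H27.L1.H34.GA.T_SMA)
    (hPHB : T_PHB) (hBIA : T_BIA) : T_HYA := by
  obtain ⟨χ, hχ⟩ := hPRF
  intro m hm ε hε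
  have hmR : (1 : ℝ) ≤ m := by exact_mod_cast hm
  obtain ⟨B, hB, hLam⟩ := hLMB m hm
  obtain ⟨r0, hr0, hZ0⟩ := hZPB m χ 0 hm hχ
  obtain ⟨k, K, CA, hk, hCA, hA⟩ := hAFH m hm r0 B ε hr0 hB hε
  obtain ⟨CZ, hCZ, hZ⟩ := hZPB m χ K hm hχ
  obtain ⟨cl0, cl, hcl0, hcl, hZL⟩ := hZLS m χ hm hχ
  obtain ⟨CN, hCN, hNR⟩ := hCNR m hm
  obtain ⟨CP, cP, AP, hCP, hcP, hP⟩ := hPHB χ hχ m hm 1 0 one_pos
  have hCN0 : 0 < CN := by linarith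
  have hCZ0 : 0 < CZ := by linarith
  obtain ⟨c, hc, hc2, hcN, hcl1⟩ : ∃ c : ℝ, 0 < c ∧ c ≤ 1 / 2 ∧ CN * c ≤ 1 / 4 ∧
      c * (m + 3) ≤ cl0 := by
    refine ⟨min (1 / 2) (min (1 / (4 * CN)) (cl0 / (m + 3))), ?_, min_le_left _ _, ?_, ?_⟩
    · exact lt_min (by norm_num) (lt_min (by positivity) (by positivity))
    · have h1 : min (1 / 2) (min (1 / (4 * CN)) (cl0 / (m + 3))) ≤ 1 / (4 * CN) :=
        (min_le_right _ _).trans (min_le_left _ _)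
      refine (mul_le_mul_of_nonneg_left h1 hCN0.le).trans (le_of_eq ?_)
      field_simp
    · have h1 : min (1 / 2) (min (1 / (4 * CN)) (cl0 / (m + 3))) ≤ cl0 / (m + 3) :=
        (min_le_right _ _).trans (min_le_right _ _)
      rwa [le_div_iff₀ (by positivity)] at h1
  obtain ⟨C1, hC1⟩ : ∃ C1 : ℝ, C1 = CA * ((c⁻¹ ^ m) ^ (1 / 2 : ℝ) * c ^ (-ε)) := ⟨_, rfl⟩
  obtain ⟨C2, hC2⟩ : ∃ C2 : ℝ, C2 = CA * CZ * (cl * c ^ (m * m))⁻¹ * c ^ (-ε) := ⟨_, rfl⟩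
  have hC1p : 0 < C1 := by
    rw [hC1]
    positivity
  have hC2p : 0 < C2 := by
    rw [hC2]
    positivity
  refine ⟨k, C1 + C2, hk, by positivity, ?_⟩
  intro N _ T D hS F lam mu P hF hn hLip hP1 L hLL t ht X hX
  have hNZ : NZ F := spx_nz hS (by rw [hn]; exact one_ne_zero)
  have hP0 : 0 < P := by linarith
  have hN1 : (1 : ℝ) ≤ N := by
    have := hS.two_le
    exact_mod_cast (by omega : 1 ≤ N)
  have hN0 : (0 : ℝ) < N := by linarith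
  obtain ⟨H, xv, hFr⟩ := hFR m N hm hS.two_le
  have hc1 : Cof m (c1 D F) 1 := by
    have h1 := hCFA m N T D hS F lam hF.toHecA
    rw [hn] at h1
    exact h1
  have hc2' : Cof m (c2 D H xv F) 1 := by
    have h1 := hCFB m N T D hS H xv hFr F lam hF.toHecA
    rw [hn] at h1
    exact h1
  have hlam := hLam N T D hS F lam hF.toHecA hNZ
  obtain ⟨δ, hδd⟩ : ∃ δ : ℝ, δ = c / P := ⟨_, rfl⟩
  have hδ0 : 0 < δ := by
    rw [hδd]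
    positivity
  have hδP : δ * P = c := by
    rw [hδd]
    field_simp
  have hδc : δ ≤ c := by
    rw [hδd]
    exact div_le_self hc.le hP1
  have hδ2 : δ ≤ 1 / 2 := hδc.trans hc2
  obtain ⟨hΦ, hΦ0, hΦW, -⟩ := hP δ hδ0 hδ2
  have hbi := (hBIA m χ hm hχ)
  obtain ⟨Cb, hCb, hbi⟩ := hbi
  have hTg := (hbi δ hδ0 hδ2).1
  have hZ1 := hZ δ hδ0 hδ2 (c1 D F) hc1
  have hZ2 := hZ δ hδ0 hδ2 (c2 D H xv F) hc2'
  have hZ3 := (hZ0 δ hδ0 hδ2 (c1 D F) hc1).2.2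
  have hZK : ∀ K : ℕ, ∃ C : ℝ, ∀ r : ℝ, 0 < r →
      ‖uu (Pool.Agent.H27.L1.H34.GA.cf (dD^[m] (bi m χ δ))) (c2 D H xv F) r‖ ≤ C * min 1 (r ^ K) := by
    intro K'
    obtain ⟨CK, hCK, hK⟩ := hZPB m χ K' hm hχ
    refine ⟨CK * δ⁻¹ ^ K', fun r hr => ?_⟩
    exact hya_min (by linarith) hr hδ0 (by linarith) ((hK δ hδ0 hδ2 _ hc2').1 r hr)
  obtain ⟨Φ, hΦd⟩ : ∃ Φ : Mat m → ℂ, Φ = dD^[m] (bi m χ δ) := ⟨_, rfl⟩
  -- the zeta integral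
  have hIfc := hCIF m N T D hS F lam mu hF
  have hpos : ∀ z, bi m χ δ z ≠ 0 → 0 < z.det := fun z hz => H84.GA.bi_pos hχ hδ0 hδ2 hz
  have hZA := (hZAD m hm mu (c1 D F) 1 hc1 hIfc (bi m χ δ) hTg hpos (1 / 2 + t * Complex.I)).2
  have hnear : ∀ z : Mat m, sz (z - 1) ≤ δ → ‖c1 D F z - ((1 : ℝ) : ℂ)‖ ≤ 1 / 4 := by
    intro z hz
    rw [Complex.ofReal_one]
    have h2 : CN * (δ * P) ≤ 1 / 4 := by
      rw [hδP]
      exact hcN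
    have h3 : δ ≤ δ * P := le_mul_of_one_le_right hδ0.le hP1
    have h4 : CN * sz (z - 1) ≤ 1 := by
      calc CN * sz (z - 1) ≤ CN * (δ * P) :=
            mul_le_mul_of_nonneg_left (hz.trans h3) hCN0.le
        _ ≤ 1 := by linarith
    refine (hNR N T D hS F lam hF.toHecA hn P hLip hP0.le z h4).trans ?_
    calc CN * P * sz (z - 1) ≤ CN * P * δ := mul_le_mul_of_nonneg_left hz (by positivity)
      _ = CN * (δ * P) := by ring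
      _ ≤ 1 / 4 := h2
  have hs : δ * (1 + ‖(1 / 2 + t * Complex.I : ℂ) - m‖) ≤ cl0 := by
    have h4 : ‖(1 / 2 + t * Complex.I : ℂ)‖ ≤ 1 / 2 + |t| := by
      refine (norm_add_le _ _).trans (le_of_eq ?_)
      rw [norm_mul, Complex.norm_I, mul_one, Complex.norm_real, Real.norm_eq_abs]
      norm_num
    have h5 : ‖(1 / 2 + t * Complex.I : ℂ) - m‖ ≤ 1 / 2 + |t| + m := by
      refine (norm_sub_le _ _).trans ?_
      rw [Complex.norm_natCast]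
      linarith
    have h6 : 1 + ‖(1 / 2 + t * Complex.I : ℂ) - m‖ ≤ (m + 3) * P := by
      nlinarith
    calc δ * (1 + ‖(1 / 2 + t * Complex.I : ℂ) - m‖) ≤ δ * ((m + 3) * P) :=
          mul_le_mul_of_nonneg_left h6 hδ0.le
      _ = (δ * P) * (m + 3) := by ring
      _ = c * (m + 3) := by rw [hδP]
      _ ≤ cl0 := hcl1
  have hlow := hZL (c1 D F) 1 1 hc1 one_pos ((1 / 2 + t * Complex.I : ℂ) - m) δ hδ0 hδ2 hs
    hnear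
  rw [← hΦd] at hΦ hΦ0 hΦW hZ1 hZ2 hZK hZA
  have hZ4 : ∀ r : ℝ, 0 < r → uu Φ (c1 D F) r ≠ 0 → r0⁻¹ ≤ r ∧ r ≤ r0 := by
    rw [hΦd]
    exact hZ3
  have hAd : Adm F (Pool.Agent.H27.L1.H34.GA.cf Φ) := Or.inr hΦ0
  have hWc := hSMA m N T D hS F lam hF.toCusB hNZ Φ hΦ hAd
  obtain ⟨L', hL', hLW'⟩ := hENA m N T D hS F lam hF.toCusB hNZ
  have hLe : L = L' := isl_uniq hLL hL'
  have hLW : ∀ s : ℂ, LmA m (uu Φ (c1 D F)) lam s = L s * MelA m (uu Φ (c1 D F)) s := by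
    rw [hLe]
    exact hLW' _ hWc
  have hne : ∃ s : ℂ, L s ≠ 0 := isl_ne hLL (lam_one hS hF.toHecA hNZ)
  have hFE := hFEC m N T D hS H xv hFr F lam hF.toCusB hNZ Φ hΦ hAd
  obtain ⟨-, hcψ, hMel⟩ := hMLZ m hm (c1 D F) 1 hc1 Φ hΦ.toTg
  have hcψ' : ContinuousOn (uu (Pool.Agent.H27.L1.H34.GA.cf Φ) (c2 D H xv F)) (Set.Ioi 0) :=
    (hΦW _ hc2').2.diff.continuousOn
  have hM1 : ∀ t : ℝ, ‖MelA m (uu Φ (c1 D F)) (1 / 2 + t * Complex.I)‖ ≤ CZ := by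
    intro t
    rw [hMel]
    exact hZ1.2.1 t
  have hM2 : ∀ t : ℝ, ‖MelA m (uu (Pool.Agent.H27.L1.H34.GA.cf Φ) (c2 D H xv F))
      (1 / 2 + t * Complex.I)‖ ≤ CZ := by
    intro t
    rw [hZPE m N B r0 lam (uu Φ (c1 D F)) (uu (Pool.Agent.H27.L1.H34.GA.cf Φ) (c2 D H xv F)) L hm hN1
      hr0 hcψ hcψ' hZ4 hZK hlam hFE hLL hLW hne t]
    exact hM1 t
  have hX' : CA * ((N : ℝ) * δ⁻¹ ^ m) ^ (1 / 2 : ℝ) * ((N : ℝ) / δ) ^ ε ≤ X := by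
    refine le_trans ?_ hX
    rw [hδd, hya_pow hN0 hP0 hc, hya_pow2 m hN0 hP0 hc]
    have h7 : CA * ((c⁻¹ ^ m) ^ (1 / 2 : ℝ) * ((N : ℝ) * P ^ m) ^ (1 / 2 : ℝ)) *
        (c ^ (-ε) * ((N : ℝ) * P) ^ ε) =
        C1 * ((N : ℝ) * P ^ m) ^ (1 / 2 : ℝ) * ((N : ℝ) * P) ^ ε := by
      rw [hC1]
      ring
    rw [h7]
    refine mul_le_mul_of_nonneg_right (mul_le_mul_of_nonneg_right ?_ ?_) ?_
    · linarith
    · positivity
    · positivity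
  have hfin := hA N δ CZ lam (uu Φ (c1 D F)) (uu (Pool.Agent.H27.L1.H34.GA.cf Φ) (c2 D H xv F)) hN1
    hδ0 hδ2 hCZ0.le hcψ hcψ' hZ4 hZ2.1 hlam hFE hM1 hM2 X hX' t
  obtain ⟨I, hI⟩ : ∃ I : ℝ, I = ∫ τ : ℝ, k τ *
    ‖SX lam X (1 / 2 + ((t + τ : ℝ) : ℂ) * Complex.I)‖ := ⟨_, rfl⟩
  have hI0 : 0 ≤ I := by
    rw [hI]
    exact integral_nonneg fun τ => mul_nonneg (hk.nn τ) (norm_nonneg _)
  rw [← hI] at hfin ⊢
  rw [hLW, hMel, norm_mul, hZA, hδd, hya_pow hN0 hP0 hc] at hfin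
  rw [hδd] at hlow
  have hPr0 : 0 ≤ ∏ i : Fin m, ∏ j,
      ‖(1 / 2 + t * Complex.I : ℂ) - ((i : ℕ) + 1) - mu j‖ :=
    Finset.prod_nonneg fun _ _ => Finset.prod_nonneg fun _ _ => norm_nonneg _
  have h8 := hya_fin (norm_nonneg _) hcl (by positivity : 0 < c ^ (m * m))
    (mul_le_mul_of_nonneg_left hlow hPr0) hfin
    (hya_prod (fun i j => ‖(1 / 2 + t * Complex.I : ℂ) - ((i : ℕ) + 1) - mu j‖) hP0 hc)
  refine h8.trans ?_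
  have h9 : CA * CZ * (cl * c ^ (m * m))⁻¹ * (c ^ (-ε) * ((N : ℝ) * P) ^ ε) * (1 + I) =
      C2 * ((N : ℝ) * P) ^ ε * (1 + I) := by
    rw [hC2]
    ring
  rw [h9]
  refine mul_le_mul_of_nonneg_right (mul_le_mul_of_nonneg_right ?_ ?_) ?_
  · linarith
  · positivity
  · linarith

end Pool.Agent.H27.L1.H69.GB
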